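import Pool.Agent.Lib.MP_035963_ag.HN.Kem

/-! The optimal weight is the nearest point of the hull of the active weights. -/

open Matrix

namespace Pool.Agent.Lib.MP_035963_ag.HN

set_option linter.unusedSectionVars false

noncomputable section

variable {F : Type} [Field F] {S : Type} [Fintype S] [DecidableEq S]
  {C : Type} [Fintype C] [DecidableEq C] {ι : C → Type} [∀ i, Fintype (ι i)]
  [∀ i, DecidableEq (ι i)] {t : (S → Σ i, ι i) → F} {g : Blk ι F} {w : (Σ i, ι i) → ℝ}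

theorem near {A κ : Type} [Fintype A] [Nonempty A] [Fintype κ] (q : A → κ → ℝ) :
    ∃ l : A → ℝ, (∀ a, 0 ≤ l a) ∧ ∑ a, l a = 1 ∧
      ∀ b, ∑ z, (∑ a, l a * q a z) ^ 2 ≤ ∑ z, (∑ a, l a * q a z) * q b z := by
  classical
  let L : (A → ℝ) →ₗ[ℝ] EuclideanSpace ℝ κ :=
    Fintype.linearCombination ℝ fun a => WithLp.toLp 2 (q a)
  have hc : Convex ℝ (L '' stdSimplex ℝ A) := (convex_stdSimplex ℝ A).linear_image L
  obtain ⟨_, ⟨l, hl, rfl⟩, e⟩ := exists_norm_eq_iInf_of_complete_convex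
    (K := L '' stdSimplex ℝ A) ⟨_, _, single_mem_stdSimplex ℝ (Classical.arbitrary A), rfl⟩
    ((isCompact_stdSimplex ℝ A).image L.continuous_of_finiteDimensional).isComplete hc 0
  refine ⟨l, hl.1, hl.2, fun b => ?_⟩
  have := (norm_eq_iInf_iff_real_inner_le_zero hc ⟨l, hl, rfl⟩).1 e _
    ⟨_, single_mem_stdSimplex ℝ b, rfl⟩
  have hL : ∀ (m : A → ℝ) z, L m z = ∑ a, m a * q a z := fun m z => by
    simp [L, Fintype.linearCombination_apply]
  simp only [zero_sub, inner_neg_left, inner_sub_right, PiLp.inner_apply, RCLike.inner_apply,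
    conj_trivial, hL, Pi.single_apply, ite_mul, one_mul, zero_mul, Finset.sum_ite_eq',
    Finset.mem_univ, if_true] at this
  simp only [sq, mul_comm _ (q b _)]
  linarith

theorem kkt (h : Opt t g w) {A : Type} [Fintype A] [Nonempty A] (c : A → S → Σ i, ι i)
    (hc : ∀ I, (t ᵥ* tb S g) I ≠ 0 ↔ ∃ a, c a = I) :
    ∃ (l : A → ℝ) (a : C → ℝ), (∀ b, 0 ≤ l b) ∧ ∑ b, l b = 1 ∧
      (∀ b, l b ≠ 0 → ∑ s, w (c b s) = 1) ∧ ∀ u : (Σ i, ι i) → ℝ,
        ∑ b, l b * ∑ s, u (c b s) = ∑ z, (a z.1 + w z / ∑ x, w x ^ 2) * u z := by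
  classical
  obtain ⟨n, hn⟩ : ∃ n : A → (Σ i, ι i) → ℝ, ∀ b (u : (Σ i, ι i) → ℝ),
      ∑ s, u (c b s) = ∑ z, n b z * u z :=
    ⟨fun b z => ∑ s, if c b s = z then 1 else 0, fun b u => by
      simp only [Finset.sum_mul, ite_mul, one_mul, zero_mul]
      rw [Finset.sum_comm]
      simp⟩
  obtain ⟨v, hv⟩ : ∃ v : A → C → ℝ, ∀ b i, ∑ x, (n b ⟨i, x⟩ - v b i) = 0 :=
    ⟨fun b i => (∑ x, n b ⟨i, x⟩) / Fintype.card (ι i), fun b i => by
      rcases isEmpty_or_nonempty (ι i) with e | e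
      · simp
      · simp [mul_div_cancel₀]⟩
  have k : ∀ b (u : (Σ i, ι i) → ℝ), (∀ i, ∑ x, u ⟨i, x⟩ = 0) →
      ∑ z, u z * (n b z - v b z.1) = ∑ s, u (c b s) := fun b u hu => by
    simp only [hn, mul_sub, Finset.sum_sub_distrib, mul_comm (u _) (n _ _)]
    simp [Fintype.sum_sigma, ← Finset.sum_mul, hu]
  obtain ⟨l, l0, l1, hl⟩ := near fun b z => n b z - v b z.1
  obtain ⟨p, hp⟩ : ∃ p : (Σ i, ι i) → ℝ, ∀ z, ∑ b, l b * (n b z - v b z.1) = p z := ⟨_, fun _ => rfl⟩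
  simp only [hp] at hl
  have p0 : ∀ i, ∑ x, p ⟨i, x⟩ = 0 := fun i => by
    simp only [← hp]
    rw [Finset.sum_comm]
    simp only [← Finset.mul_sum, hv, mul_zero, Finset.sum_const_zero]
  have a1 : ∑ z, p z * w z = ∑ b, l b * ∑ s, w (c b s) := by
    simp only [← hp, Finset.sum_mul, ← k _ _ h.1.sum, Finset.mul_sum]
    rw [Finset.sum_comm]
    exact Finset.sum_congr rfl fun _ _ => Finset.sum_congr rfl fun _ _ => by ring
  have a2 : ∀ b, 0 ≤ l b * (∑ s, w (c b s) - 1) := fun b =>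
    mul_nonneg (l0 b) (sub_nonneg.2 (h.1.pos _ ((hc _).2 ⟨b, rfl⟩)))
  have a3 : ∑ b, l b * (∑ s, w (c b s) - 1) = ∑ z, p z * w z - 1 := by
    simp only [mul_sub, Finset.sum_sub_distrib, mul_one, l1, a1]
  have a4 : 1 ≤ ∑ z, p z * w z := sub_nonneg.1 (a3 ▸ Finset.sum_nonneg fun b _ => a2 b)
  have a5 := Finset.sum_mul_sq_le_sq_mul_sq Finset.univ p w
  have a6 : 1 ≤ (∑ z, p z ^ 2) * ∑ z, w z ^ 2 := by nlinarith
  have N0 : 0 < ∑ z, p z ^ 2 := (Finset.sum_nonneg fun z _ => sq_nonneg _).lt_of_ne fun e => by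
    rw [← e] at a6
    linarith
  have d : Des t g fun z => p z / ∑ z, p z ^ 2 := by
    refine ⟨h.1.det, fun i => by rw [← Finset.sum_div, p0, zero_div], fun I hI => ?_⟩
    obtain ⟨b, rfl⟩ := (hc I).1 hI
    rw [← Finset.sum_div, one_le_div N0, ← k b p p0]
    exact hl b
  have a7 : ∑ z, (p z / ∑ z, p z ^ 2) ^ 2 = (∑ z, p z ^ 2)⁻¹ := by
    simp only [div_pow, ← Finset.sum_div]
    field_simp
  have a8 : (∑ z, p z ^ 2)⁻¹ = ∑ z, w z ^ 2 :=
    le_antisymm ((inv_le_iff_one_le_mul₀' N0).2 a6) (a7 ▸ h.2 _ _ d)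
  have a9 := congrFun (h.eq d (a7.trans a8))
  have b1 : ∑ z, p z * w z = 1 := by
    simp only [← a9, ← mul_div_assoc, ← sq, ← Finset.sum_div]
    exact div_self N0.ne'
  refine ⟨l, fun i => ∑ b, l b * v b i, l0, l1, fun b hb => ?_, fun u => ?_⟩
  · rw [b1, sub_self] at a3
    exact sub_eq_zero.1 ((mul_eq_zero.1 ((Finset.sum_eq_zero_iff_of_nonneg fun b _ => a2 b).1 a3 b
      (Finset.mem_univ b))).resolve_left hb)
  · simp only [hn, Finset.mul_sum, ← mul_assoc]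
    rw [Finset.sum_comm]
    refine Finset.sum_congr rfl fun z _ => ?_
    rw [← Finset.sum_mul, ← a8, ← a9, div_inv_eq_mul, div_mul_cancel₀ _ N0.ne', ← hp,
      ← Finset.sum_add_distrib]
    exact congrArg (· * u z) (Finset.sum_congr rfl fun _ _ => by ring)

theorem round {A : Type} [Fintype A] {l : A → ℝ} (h0 : ∀ a, 0 ≤ l a) (h1 : ∑ a, l a = 1)
    (x : A → ℝ) (D : ℕ) : ∃ j : Fin D → A, (∀ d, l (j d) ≠ 0) ∧
      ∑ d, x (j d) ≤ D * ∑ a, l a * x a ∧ ∀ (c : A → ℝ) (B : ℝ), (∀ a, |c a| ≤ B) →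
        D * ∑ a, l a * c a - 2 * B * Fintype.card A ≤ ∑ d, c (j d) := by
  classical
  obtain ⟨b, hb, hm⟩ := Finset.exists_min_image (Finset.univ.filter fun a => l a ≠ 0) x (by
    obtain ⟨a, -, ha⟩ := Finset.exists_ne_zero_of_sum_ne_zero (h1.trans_ne one_ne_zero)
    exact ⟨a, by simpa using ha⟩)
  have f0 : ∀ a, (⌊D * l a⌋₊ : ℝ) ≤ D * l a := fun a => Nat.floor_le (mul_nonneg D.cast_nonneg (h0 a))
  have f1 : ∑ a, ⌊D * l a⌋₊ ≤ D := by
    have := Finset.sum_le_sum (s := Finset.univ) fun a _ => f0 a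
    rw [← Finset.mul_sum, h1, mul_one] at this
    exact_mod_cast this
  let k : A → ℕ := fun a => ⌊D * l a⌋₊ + if a = b then D - ∑ a, ⌊D * l a⌋₊ else 0
  let e : Fin D ≃ Σ a, Fin (k a) := Fintype.equivOfCardEq (by
    simp [k, Finset.sum_add_distrib, Nat.add_sub_cancel' f1])
  have s : ∀ c : A → ℝ, ∑ d, c (e d).1 =
      D * ∑ a, l a * c a + ∑ a, (D * l a - ⌊D * l a⌋₊) * (c b - c a) := fun c => by
    rw [e.sum_comp fun p => c p.1, Fintype.sum_sigma]
    simp only [Finset.sum_const, Finset.card_univ, Fintype.card_fin, nsmul_eq_mul, k, Nat.cast_add,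
      Nat.cast_ite, Nat.cast_sub f1, add_mul, ite_mul, Finset.sum_add_distrib, Nat.cast_zero,
      zero_mul, Finset.sum_ite_eq', Finset.mem_univ, if_true, mul_sub, sub_mul,
      Finset.sum_sub_distrib, mul_assoc, ← Finset.mul_sum, ← Finset.sum_mul, h1, Nat.cast_sum]
    ring
  refine ⟨fun d => (e d).1, fun d z => ?_, ?_, fun c B hB => ?_⟩
  · have := (e d).2.pos
    have q : (e d).1 ≠ b := fun q => (Finset.mem_filter.1 hb).2 (q ▸ z)
    simp [k, z, q] at this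
  · rw [s, add_le_iff_nonpos_right]
    refine Finset.sum_nonpos fun a _ => ?_
    by_cases z : l a = 0
    · simp [z]
    · exact mul_nonpos_of_nonneg_of_nonpos (sub_nonneg.2 (f0 a))
        (sub_nonpos.2 (hm a (by simpa using z)))
  · rw [s, sub_eq_add_neg, add_le_add_iff_left, mul_comm, ← nsmul_eq_mul, ← smul_neg]
    refine Finset.card_nsmul_le_sum _ _ _ fun a _ => ?_
    have := Nat.lt_floor_add_one (D * l a)
    have a1 := abs_le.1 (hB a)
    have a2 := abs_le.1 (hB b)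
    nlinarith [f0 a]

end

end Pool.Agent.Lib.MP_035963_ag.HN
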