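import Pool.Agent.Lib.MP_035963_ag.HB.Rat
import Pool.Agent.Lib.MP_035963_ag.HB.Kkt

/-! The stabilizer of an unstable tensor fixes a product of determinants along a flag. -/

open Matrix

namespace Pool.Agent.Lib.MP_035963_ag.HN

set_option linter.unusedSectionVars false

noncomputable section

variable {F Λ : Type} [Field F] [Field Λ] [CharZero Λ] {S : Type} [Fintype S] [DecidableEq S]
  {κ α : Type} [Fintype κ] [DecidableEq κ]

open Classical in
/-- The part of a tensor where a condition holds. -/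
def cut (Q : (S → κ) → Prop) (T : (S → κ) → F) (J : S → κ) : F := if Q J then T J else 0

theorem cut_ne {Q : (S → κ) → Prop} {T : (S → κ) → F} {J} : cut Q T J ≠ 0 ↔ Q J ∧ T J ≠ 0 := by
  simp [cut]

theorem cut_tq {f : κ → α} {Q : (S → κ) → Prop} (hQ : ∀ I J, (∀ s, f (I s) = f (J s)) → Q I → Q J)
    (T : (S → κ) → F) {M : Matrix κ κ F} (hM : ∀ x y, M x y ≠ 0 → f x = f y) :
    cut Q T ᵥ* tq S M = cut Q (T ᵥ* tq S M) := by
  funext J
  have c : ∀ I, tq S M I J ≠ 0 → ∀ s, f (I s) = f (J s) := fun I z s =>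
    hM _ _ fun e => z (Finset.prod_eq_zero (Finset.mem_univ s) e)
  by_cases q : Q J
  · refine .trans (Finset.sum_congr rfl fun I _ => ?_) (if_pos q).symm
    by_cases z : tq S M I J = 0
    · exact (mul_eq_zero_of_right _ z).trans (mul_eq_zero_of_right _ z).symm
    · exact congrArg (· * _) (if_pos (hQ J I (fun s => (c I z s).symm) q))
  · refine .trans (Finset.sum_eq_zero fun I _ => by_contra fun z => q ?_) (if_neg q).symm
    exact hQ I J (c I (right_ne_zero_of_mul z)) (cut_ne.1 (left_ne_zero_of_mul z)).1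

theorem cut_map (φ : Λ →+* F) (Q : (S → κ) → Prop) (T : (S → κ) → Λ) :
    φ ∘ cut Q T = cut Q (φ ∘ T) := funext fun J => by simp [cut, apply_ite φ]

theorem cut_smul (s : F) (Q : (S → κ) → Prop) (T : (S → κ) → F) : cut Q (s • T) = s • cut Q T :=
  funext fun J => by simp [cut]

theorem avg [DecidableEq α] (f : κ → α) : ∃ l : κ → α → ℝ, (∀ x c, 0 ≤ l x c ∧ l x c ≤ 1) ∧
    ∀ (ψ : α → ℝ) x, ∑ z, ψ (f z) * l x (f z) = ψ (f x) := by
  have p : ∀ x, 1 ≤ ((Finset.univ.filter fun z => f z = f x).card : ℝ) := fun x =>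
    Nat.one_le_cast.2 (Finset.card_pos.2 ⟨x, by simp⟩)
  refine ⟨fun x c => if c = f x then ((Finset.univ.filter fun z => f z = f x).card : ℝ)⁻¹ else 0,
    fun x c => ?_, fun ψ x => ?_⟩
  · dsimp only
    split_ifs
    · exact ⟨by positivity, inv_le_one_of_one_le₀ (p x)⟩
    · simp
  · simp only [mul_ite, mul_zero]
    rw [← Finset.sum_filter, Finset.sum_congr rfl fun z hz => by rw [(Finset.mem_filter.1 hz).2],
      Finset.sum_const, nsmul_eq_mul, mul_left_comm, mul_inv_cancel₀ (by linarith [p x]), mul_one]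

theorem prod_step (D : F) {A m : ℕ} (h : m ≤ A) :
    ∏ _ : Fin A, D = D ^ m * ∏ a : Fin A, if m ≤ a then D else 1 := by
  rw [Fin.prod_univ_eq_prod_range (fun a => if m ≤ a then D else 1), ← Finset.prod_filter,
    show (Finset.range A).filter (m ≤ ·) = Finset.Ico m A from Finset.ext (by simp [and_comm])]
  simp [← pow_add, h]

theorem tb_ne {C : Type} [Fintype C] [DecidableEq C] {ι : C → Type} [∀ i, Fintype (ι i)]
    [∀ i, DecidableEq (ι i)] {t : (S → Σ i, ι i) → F} (h : t ≠ 0) {b : Blk ι F}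
    (hb : ∀ i, (b i).det ≠ 0) : t ᵥ* tb S b ≠ 0 := fun z => h (by
  have e : b * (fun i => (b i)⁻¹) = 1 := funext fun i => mul_nonsing_inv _ (hb i).isUnit
  rw [← vecMul_one t, ← tb_one, ← e, tb_mul, ← vecMul_vecMul, z, zero_vecMul])

theorem bogo {n : ℕ} {ι : Fin n → Type} [∀ i, Fintype (ι i)] [∀ i, DecidableEq (ι i)]
    {t : (S → Σ i, ι i) → Λ} (h0 : t ≠ 0) {w}
    (h : Opt (algebraMap Λ (AlgebraicClosure Λ) ∘ t) 1 w) :
    ∃ (N A : ℕ) (m : (Σ i, ι i) → ℕ), (∀ z, m z < A) ∧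
      (∀ x y, x.1 = y.1 → (m x ≤ m y ↔ w x ≤ w y)) ∧ ∀ (k : Blk ι Λ) (s : Λ),
        (∀ i, (k i).det ≠ 0) → t ᵥ* tb S k = s • t →
          (∀ x y, blockDiagonal' k x y ≠ 0 → x.1 = y.1 ∧ m x ≤ m y) ∧
          ∏ q : Fin n × Fin A, ((blockDiagonal' k).toSquareBlockProp fun z => z.1 = q.1).det =
            s ^ N * ∏ q : Fin n × Fin A,
              ((blockDiagonal' k).toSquareBlockProp fun z => z.1 = q.1 ∧ m z ≤ q.2).det := by
  classical
  set φ := algebraMap Λ (AlgebraicClosure Λ) with hφ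
  obtain ⟨f, hf⟩ : ∃ f : (Σ i, ι i) → Fin n ×ₗ ℝ, ∀ z, f z = toLex (z.1, w z) := ⟨_, fun _ => rfl⟩
  have f1 : ∀ x y, f x = f y ↔ x.1 = y.1 ∧ w x = w y := fun x y => by simp [hf]
  obtain ⟨l, l0, l1⟩ := avg f
  obtain ⟨D, hD⟩ := (Filter.eventually_all.2 fun p : {p : (Σ i, ι i) × Σ i, ι i // w p.1 < w p.2} =>
    (tendsto_natCast_atTop_atTop.atTop_mul_const (r := (w p.1.2 - w p.1.1) / ∑ x, w x ^ 2)
      (div_pos (sub_pos.2 p.2) ((Finset.sum_nonneg fun x _ => sq_nonneg _).lt_of_ne fun e => by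
        have := (Finset.sum_eq_zero_iff_of_nonneg fun x _ => sq_nonneg _).1 e.symm
        have a := p.2
        rw [eq_zero_of_pow_eq_zero (this p.1.1 (Finset.mem_univ _)),
          eq_zero_of_pow_eq_zero (this p.1.2 (Finset.mem_univ _))] at a
        exact a.false))).eventually_gt_atTop
          (2 * Fintype.card S * Fintype.card (S → Σ i, ι i) : ℝ)).exists
  let P : (S → Σ i, ι i) → Prop := fun I => ∑ s, w (I s) = 1
  let Q : (Fin D × S → Σ i, ι i) → Prop := fun J => ∀ x y, x.1 = y.1 → w x < w y →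
    0 < ∑ p, (l y (f (J p)) - l x (f (J p)))
  have hP : ∀ I J, (∀ s, f (I s) = f (J s)) → P I → P J := fun I J e a =>
    (Finset.sum_congr rfl fun s _ => ((f1 _ _).1 (e s)).2.symm).trans a
  have hQ : ∀ I J, (∀ s, f (I s) = f (J s)) → Q I → Q J := fun I J e a x y b c => by
    simpa only [e] using a x y b c
  obtain ⟨d, J, m, j0, j1, j2⟩ := flat f (T := cut Q (pw (cut P t) D)) fun M u m1 m2 m3 => by
    obtain ⟨b, rfl, hb⟩ := git_blk (g := M)
      (fun x y z => by_contra fun q => z ((f1 _ _).1 (m2 x y q)).1) m1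
    have o : Opt (φ ∘ t) b w := ⟨one_mul b ▸ h.1.up hb fun i x y q =>
      ((f1 _ _).1 (m2 ⟨i, x⟩ ⟨i, y⟩ (by rwa [blockDiagonal'_apply_eq]))).2.le, h.2⟩
    have : Nonempty {I // ((φ ∘ t) ᵥ* tb S b) I ≠ 0} := nonempty_subtype.2 (Function.ne_iff.1
      (tb_ne (t := φ ∘ t) (fun z => h0 (funext fun I => φ.injective (by simpa using congrFun z I))) hb))
    obtain ⟨c, a, c0, c1, c2, c3⟩ := kkt o (Subtype.val : {I // ((φ ∘ t) ᵥ* tb S b) I ≠ 0} → _)
      fun I => by simp
    obtain ⟨j, r1, r2, r3⟩ := round c0 c1 (fun I => ∑ s, u (I.1 s)) D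
    have e : ∀ z, a z.1 + w z / ∑ x, w x ^ 2 =
        (fun c : Fin n ×ₗ ℝ => a (ofLex c).1 + (ofLex c).2 / ∑ x, w x ^ 2) (f z) := fun z => by
      simp [hf]
    refine ⟨fun p => (j p.1).1 p.2, ?_, ?_⟩
    · rw [cut_map, cut_tq hQ _ m2, show φ ∘ pw (cut P t) D = pw (φ ∘ cut P t) D from
        funext fun J => map_prod φ _ _, pw_vecMul, cut_map, cut_tq hP _ m2, cut_ne]
      refine ⟨fun x y a1 a2 => ?_, Finset.prod_ne_zero_iff.2 fun d _ =>
        cut_ne.2 ⟨c2 _ (r1 d), (j d).2⟩⟩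
      have a3 := r3 (fun I => ∑ s, (l y (f (I.1 s)) - l x (f (I.1 s)))) (Fintype.card S) fun I =>
        (Finset.abs_sum_le_sum_abs _ _).trans ((Finset.sum_le_card_nsmul _ _ 1 fun s _ =>
          abs_le.2 ⟨by linarith [(l0 y (f (I.1 s))).1, (l0 x (f (I.1 s))).2],
            by linarith [(l0 y (f (I.1 s))).2, (l0 x (f (I.1 s))).1]⟩).trans (by simp))
      rw [c3 fun z => l y (f z) - l x (f z)] at a3
      simp only [e, mul_sub, Finset.sum_sub_distrib] at a3
      rw [l1 fun c : Fin n ×ₗ ℝ => a (ofLex c).1 + (ofLex c).2 / ∑ x, w x ^ 2,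
        l1 fun c : Fin n ×ₗ ℝ => a (ofLex c).1 + (ofLex c).2 / ∑ x, w x ^ 2] at a3
      simp only [hf x, hf y, ofLex_toLex, a1] at a3
      have a4 := hD ⟨(x, y), a2⟩
      have a5 : (Fintype.card {I // ((φ ∘ t) ᵥ* tb S b) I ≠ 0} : ℝ) ≤
          Fintype.card (S → Σ i, ι i) := Nat.cast_le.2 (Fintype.card_subtype_le _)
      simp only [Fintype.sum_prod_type, Finset.sum_sub_distrib, sub_div] at a4 ⊢
      nlinarith [Nat.cast_nonneg (α := ℝ) (Fintype.card S)]
    · rw [c3 u] at r2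
      simp only [e] at r2
      rw [m3 fun c : Fin n ×ₗ ℝ => a (ofLex c).1 + (ofLex c).2 / ∑ x, w x ^ 2, mul_zero] at r2
      rw [Fintype.sum_prod_type]
      exact r2.trans_lt one_pos
  have m1 : ∀ x y, x.1 = y.1 → w x < w y → m (f x) < m (f y) := fun x y a1 a2 => by
    have := Finset.sum_pos (s := Finset.univ) (fun e _ => (cut_ne.1
      (Finset.prod_ne_zero_iff.1 j0 e (Finset.mem_univ _))).1 x y a1 a2) Finset.univ_nonempty
    rw [← Fintype.sum_prod_type (f := fun p => l y (f (J p)) - l x (f (J p))),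
      j1 fun z => l y (f z) - l x (f z)] at this
    simp only [mul_sub, Finset.sum_sub_distrib, l1 fun c => (m c : ℝ)] at this
    exact_mod_cast sub_pos.1 this
  have m2 : ∀ x y, x.1 = y.1 → (m (f x) ≤ m (f y) ↔ w x ≤ w y) := fun x y a =>
    ⟨fun q => not_lt.1 fun z => (m1 y x a.symm z).not_ge q, fun q => q.eq_or_lt.elim
      (fun z => ((f1 x y).2 ⟨a, z⟩) ▸ le_rfl) fun z => (m1 x y a z).le⟩
  have m3 : ∀ z, m (f z) < ∑ z, m (f z) + 1 := fun z => Nat.lt_succ_of_le
    (Finset.single_le_sum (f := fun z => m (f z)) (fun _ _ => Nat.zero_le _) (Finset.mem_univ z))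
  refine ⟨D * (d + 1), _, fun z => m (f z), m3, m2, fun k s k1 k2 => ?_⟩
  have o : Opt (φ ∘ t) (1 * fun i => (k i).map φ) w := by
    refine ⟨⟨fun i => ?_, h.1.sum, fun I hI => h.1.pos I fun z => hI ?_⟩, h.2⟩
    · rw [one_mul, ← RingHom.mapMatrix_apply, ← RingHom.map_det]
      exact (map_ne_zero φ).2 (k1 i)
    · rw [tb_one, vecMul_one] at z
      rw [one_mul, vecMul_map, k2, Function.comp_apply, Pi.smul_apply, smul_eq_mul, map_mul]
      exact mul_eq_zero_of_right _ z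
  have u : ∀ x y, blockDiagonal' k x y ≠ 0 → x.1 = y.1 ∧ w x ≤ w y := fun x y =>
    of_blockDiagonal' (P := fun x y => x.1 = y.1 ∧ w x ≤ w y) fun i x y q =>
      ⟨rfl, h.up o i x y ((map_ne_zero φ).2 q)⟩
  refine ⟨fun x y q => ⟨(u x y q).1, (m2 x y (u x y q).1).2 (u x y q).2⟩, ?_⟩
  change t ᵥ* tq S (blockDiagonal' k) = _ at k2
  have k3 := bd_det k1
  generalize blockDiagonal' k = K at u k2 k3
  have b : K.BlockTriangular f := fun x y q => by_contra fun z => q.not_ge (by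
    rw [hf, hf, (u x y z).1]
    exact Prod.Lex.toLex_le_toLex.2 (Or.inr ⟨rfl, (u x y z).2⟩))
  have e : ∀ c, toSquareBlock (of fun x y => if f x = f y then K x y else 0) f c =
      K.toSquareBlock f c := fun c => Matrix.ext fun x y => if_pos (x.2.trans y.2.symm)
  have a := j2 (of fun x y => if f x = f y then K x y else 0) (s ^ D)
    (fun x y q => (ite_ne_right_iff.1 q).1)
    (fun c hc => e c ▸ Finset.prod_ne_zero_iff.1 (b.det ▸ k3) c hc) (by
      have g : ∀ x y, (of fun x y => if f x = f y then K x y else 0) x y ≠ 0 → f x = f y :=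
        fun x y q => (ite_ne_right_iff.1 q).1
      rw [cut_tq hQ _ g, pw_vecMul, cut_tq hP _ g, ← cut_smul]
      refine congrArg _ (.trans (congrArg (pw · D) (?_ : _ = s • cut P t))
        (funext fun J => by simp [pw, Finset.prod_mul_distrib]))
      rw [← cut_smul, ← k2]
      refine funext fun J => ite_congr rfl (fun q => Finset.sum_congr rfl fun I _ => ?_) fun _ => rfl
      by_cases z : t I = 0
      · exact (mul_eq_zero_of_left z _).trans (mul_eq_zero_of_left z _).symm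
      refine congrArg _ ?_
      by_cases y : ∃ s, K (I s) (J s) = 0
      · obtain ⟨s, y⟩ := y
        exact (Finset.prod_eq_zero (Finset.mem_univ s) (by simp [y])).trans
          (Finset.prod_eq_zero (Finset.mem_univ s) y).symm
      push Not at y
      have y2 := h.1.pos I (by simpa [tb_one] using z)
      exact Finset.prod_congr rfl fun s hs => if_pos ((f1 _ _).2 ⟨(u _ _ (y s)).1,
        (Finset.sum_eq_sum_iff_of_le fun s _ => (u _ _ (y s)).2).1 (le_antisymm
          (Finset.sum_le_sum fun s _ => (u _ _ (y s)).2) (q.trans_le y2)) s hs⟩))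
  rw [pow_mul, ← a]
  have s1 := fun i : Fin n => det_sub b (·.1 = i) (fun c => (ofLex c).1 = i) (by simp [hf])
  have s2 := fun (i : Fin n) (a : ℕ) => det_sub b (fun z => z.1 = i ∧ m (f z) ≤ a)
    (fun c => (ofLex c).1 = i ∧ m c ≤ a) (by simp [hf])
  simp only [e, s1, s2]
  rw [Finset.prod_comm, Finset.prod_comm (s := Finset.univ), ← Finset.prod_mul_distrib]
  refine Finset.prod_congr rfl fun c hc => ?_
  obtain ⟨z, -, rfl⟩ := Finset.mem_image.1 hc
  rw [Fintype.prod_prod_type, Fintype.prod_prod_type,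
    Fintype.prod_eq_single (ofLex (f z)).1 fun i q => by simp [q.symm],
    Fintype.prod_eq_single (ofLex (f z)).1 fun i q => by simp [q.symm]]
  simpa using prod_step _ (m3 z).le

end

end Pool.Agent.Lib.MP_035963_ag.HN
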