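import Pool.Agent.Lib.MP_035963_ag.HN.Defs

/-! Algebraic multilinear forms, and Tate classes of determinant type along flags. -/

open CategoryTheory AlgebraicGeometry Module

namespace Pool.Agent.Lib.MP_035963_ag.HN

noncomputable section

variable {S : Scheme.{0}} {Λ : Type} [Field Λ] [CharZero Λ] {H : Over S → Type}
  [∀ X, Ring (H X)] [∀ X, Algebra Λ (H X)] [∀ X, Module ℚ (H X)] (W : Coh Λ H) {X Y Z : Over S}

/-- The multilinear form on the cohomology of `X` given by a class on `Y` and maps to `X`. -/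
def Coh.ev {m : ℕ} (η : H Y) (f : Fin m → (Y ⟶ X)) (u : Fin m → H X) : Λ :=
  W.tr Y (η * (List.ofFn fun j => W.pull (f j) (u j)).prod)

/-- The form is invariant, up to the power of the twist given by the degrees. -/
def Coh.Inv (G : Set ((H X ≃ₐ[Λ] H X) × Λˣ)) {m : ℕ} (β : (Fin m → H X) → Λ) : Prop :=
  ∀ g ∈ G, ∀ (d : Fin m → ℕ) (u : Fin m → H X), (∀ j, u j ∈ W.gr X (d j)) →
    β (fun j => g.1 (u j)) = g.2 ^ ((∑ j, d j) / 2) • β u

/-- The product of the determinants on the quotients of `U i` by `V i` is a power of the twist. -/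
def TateQ {R : Type} [Ring R] [Algebra Λ R] {r : ℕ} (G : Set ((R ≃ₐ[Λ] R) × Λˣ))
    (U V : Fin r → Submodule Λ R) : Prop :=
  ∃ w : ℕ, ∀ g ∈ G, ∀ (φ : ∀ i, Module.End Λ (U i)) (ψ : ∀ i, Module.End Λ (V i)),
    (∀ i u, (φ i u).1 = g.1 u) → (∀ i u, (ψ i u).1 = g.1 u) →
      ∏ i, LinearMap.det (φ i) = ↑(g.2 ^ w) * ∏ i, LinearMap.det (ψ i)

/-- For each finite set of prime cycles on `Z` there are symmetries of the cohomology of `X` that
fix their forms, and stable subspaces with invariant algebraic forms, whose inverse images generate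
the cohomology of `Z`, such that in a Tate family of flags the forms vanish on trivial members only,
and the Tate classes of determinant type are algebraic. -/
def Coh.Gap {r : ℕ} (π : Fin r → (Z ⟶ X)) : Prop :=
  ∀ T : Finset Z.left, ∃ G : Set ((H X ≃ₐ[Λ] H X) × Λˣ),
    (∀ x ∈ T, ∀ (m : ℕ) (j : Fin m → Fin r), W.Inv G (W.ev (W.cl Z x) (π ∘ j))) ∧
    ∃ (n : ℕ) (U : Fin n → Submodule Λ (H X)) (Y : Fin n → Over S) (η : ∀ i, H (Y i))
      (m : Fin n → ℕ) (f : ∀ i, Fin (m i + 1) → (Y i ⟶ X)),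
      (∀ i, (∃ d, U i ≤ W.gr X d) ∧ Stb G (U i) ∧ W.V (Y i) ∧ η i ∈ W.B (Y i) ∧
        W.Inv G (W.ev (η i) (f i))) ∧
      Algebra.adjoin Λ (⋃ (j) (i), W.pull (π j) '' U i) = ⊤ ∧
      ∀ (q : ℕ) (κ : Fin q → Fin n) (V : Fin q → Submodule Λ (H X)),
        (∀ k, V k ≤ U (κ k) ∧ Stb G (V k) ∧ ∀ l, κ k = κ l → V k ≤ V l ∨ V l ≤ V k) →
        TateQ G (fun k => U (κ k)) V →
          (∀ k, (∀ u, (∀ j, u j ∈ V k) → W.ev (η (κ k)) (f (κ k)) u = 0) →
            V k = ⊥ ∨ V k = U (κ k)) ∧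
          ((∀ k, V k = ⊥) → ∀ (a : Fin q → ℕ) (b : ∀ k, Basis (Fin (a k)) Λ (U (κ k))), W.Alg b)

end

end Pool.Agent.Lib.MP_035963_ag.HN
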