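import Pool.Agent.Lib.MP_035963_ag.HB.Defs
import Pool.Agent.Lib.MP_035963_ag.HB.Bog
import Pool.Agent.Lib.MP_035963_ag.HN.Top

/-! The tensors of algebraic forms. -/

open CategoryTheory MonoidalCategory CartesianMonoidalCategory Opposite Module Matrix

namespace Pool.Agent.Lib.MP_035963_ag.HN

set_option linter.unusedSectionVars false

noncomputable section

section

variable {Λ : Type} [Field Λ] [CharZero Λ] {S : Type} [Fintype S] [DecidableEq S]
  {C : Type} [Fintype C] [DecidableEq C] {ι : C → Type} [∀ i, Fintype (ι i)]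
  [∀ i, DecidableEq (ι i)] {γ : S → C} {M : Type} [AddCommGroup M] [Module Λ M]

/-- The tensor of a form on vectors of given colours. -/
def ten (Φ : (S → M) → Λ) (e : (Σ i, ι i) → M) (γ : S → C) (I : S → Σ i, ι i) : Λ :=
  if ∀ s, (I s).1 = γ s then Φ fun s => e (I s) else 0

theorem ten_ne {Φ : (S → M) → Λ} {e : (Σ i, ι i) → M} {I} :
    ten Φ e γ I ≠ 0 ↔ (∀ s, (I s).1 = γ s) ∧ Φ (fun s => e (I s)) ≠ 0 := ite_ne_right_iff

theorem ten_tb (Φ : MultilinearMap Λ (fun _ : S => M) Λ) (e : (Σ i, ι i) → M) (k : Blk ι Λ) :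
    ten Φ e γ ᵥ* tb S k = ten Φ (fun p => ∑ q, blockDiagonal' k q p • e q) γ := by
  funext J
  by_cases hJ : ∀ x, (J x).1 = γ x
  · rw [ten, if_pos hJ, Φ.map_sum]
    refine Finset.sum_congr rfl fun I _ => ?_
    rw [Φ.map_smul_univ, smul_eq_mul, mul_comm]
    by_cases z : tb S k I J = 0
    · exact (mul_eq_zero_of_left z _).trans (mul_eq_zero_of_left z _).symm
    · exact congrArg _ (if_pos fun x => (rey_col z x).trans (hJ x))
  · rw [ten, if_neg hJ]
    exact Finset.sum_eq_zero fun I _ => by_contra fun z => hJ fun x =>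
      (rey_col (right_ne_zero_of_mul z) x).symm.trans ((ten_ne.1 (left_ne_zero_of_mul z)).1 x)

theorem ten_ex (Φ : MultilinearMap Λ (fun _ : S => M) Λ) {e : (Σ i, ι i) → M}
    {p : S → (Σ i, ι i) → Prop} (hp : ∀ s z, p s z → z.1 = γ s) {u : S → M}
    (hu : ∀ s, u s ∈ Submodule.span Λ (e '' {z | p s z})) (h : Φ u ≠ 0) :
    ∃ I, ten Φ e γ I ≠ 0 ∧ ∀ s, p s (I s) := by
  obtain ⟨v, hv, q⟩ := ml_ne Φ hu h
  choose I a b using hv
  exact ⟨I, ten_ne.2 ⟨fun s => hp s _ (a s), funext b ▸ q⟩, a⟩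

theorem git3 {t : (S → Σ i, ι i) → Λ} (hγ : ∀ J, t J ≠ 0 → ∀ s, (J s).1 = γ s)
    (h : ∀ g w, ¬Des (algebraMap Λ (AlgebraicClosure Λ) ∘ t) g w) :
    ∃ (d r : ℕ) (κ : Fin r → C) (E : (Σ k : Fin r, ι (κ k)) ≃ Fin (d + 1) × S),
      (∀ p, γ (E p).2 = κ p.1) ∧ (∀ (g : Blk ι Λ) (s : Λ), (∀ i, (g i).det ≠ 0) →
        t ᵥ* tb S g = s • t → ∏ k, (g (κ k)).det = s ^ (d + 1)) ∧
      ∑ π : ∀ k, Equiv.Perm (ι (κ k)), (∏ k, ((Equiv.Perm.sign (π k) : ℤ) : Λ)) *
        pw t (d + 1) (fun x => ⟨κ (E.symm x).1, π _ (E.symm x).2⟩) ≠ 0 := by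
  obtain ⟨d, P, h1, h2⟩ := Sep.inv (hm t h)
  have hT : ∀ J, pw t (d + 1) J ≠ 0 → ∀ p : Fin (d + 1) × S, (J p).1 = γ p.2 := fun J h p =>
    hγ _ (Finset.prod_ne_zero_iff.1 h p.1 (Finset.mem_univ _)) p.2
  obtain ⟨Q, q0, q1, q2⟩ : ∃ Q : (Fin (d + 1) × S → Σ i, ι i) → Λ, pw t (d + 1) ⬝ᵥ Q ≠ 0 ∧
      (∀ J, Q J ≠ 0 → ∀ p, (J p).1 = γ p.2) ∧ ∀ i x y b, tb _ (gen Λ i x y b) *ᵥ Q = Q := by
    refine ⟨fun J => if ∀ p, (J p).1 = γ p.2 then P J else 0,
      fun e => h1 (Eq.trans (Finset.sum_congr rfl fun J _ => ?_) e),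
      fun J h => by_contra fun q => h (if_neg q), fun i x y b => cut_inv _ (h2 i x y b)⟩
    by_cases z : pw t (d + 1) J = 0
    · rw [z, zero_mul, zero_mul]
    · exact congrArg _ (if_pos (hT J z)).symm
  obtain ⟨J, -, hJ⟩ := Finset.exists_ne_zero_of_sum_ne_zero q0
  obtain ⟨r, κ, E, rfl⟩ := se_equiv q2 (right_ne_zero_of_mul hJ)
  have k : ∀ g : Blk ι Λ, (∀ i, (g i).det ≠ 0) → Se κ Q g := fun g hg =>
    se_all q1 q2 (right_ne_zero_of_mul hJ) hg
  obtain ⟨σ, hσ⟩ := sw2 hT (fun g hg => ⟨_, k g hg, dl_tb E g⟩) q0 (dl_sq E)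
  have k2 : ∑ π : ∀ k, Equiv.Perm (ι (κ k)), (∏ k, ((Equiv.Perm.sign (π k) : ℤ) : Λ)) *
      pw t (d + 1) (jp (E.trans σ) π) ≠ 0 := fun e => hσ (by
    rw [← e, ← (σ.arrowCongr (.refl _)).sum_comp]
    refine .trans (Finset.sum_congr rfl fun J _ => ?_) (dl_dot E fun J => pw t (d + 1) (J ∘ σ.symm))
    exact congrArg (_ * dl Λ E ·) (funext fun x => congrArg J (σ.symm_apply_apply x)))
  refine ⟨d, r, κ, E.trans σ, fun p => ?_, fun g s hg hs => ?_, k2⟩
  · obtain ⟨π, -, h⟩ := Finset.exists_ne_zero_of_sum_ne_zero k2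
    rw [← hT _ (right_ne_zero_of_mul h), jp_apply]
  · have a := dotProduct_mulVec (pw t (d + 1)) (tb _ g) Q
    have b : pw t (d + 1) ᵥ* tb _ g = s ^ (d + 1) • pw t (d + 1) := by
      refine (pw_vecMul _ _ _).trans ((congrArg (pw · (d + 1)) hs).trans (funext fun J => ?_))
      simp [pw, Finset.prod_mul_distrib]
    rw [k g hg, b, dotProduct_smul, smul_dotProduct] at a
    exact mul_right_cancel₀ q0 a

theorem det_span {κ : Type} [Fintype κ] [DecidableEq κ] {e : κ → M} {p : κ → Prop} [DecidablePred p]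
    (h : LinearIndependent Λ fun z : Subtype p => e z) {g : M → M} {K : Matrix κ κ Λ}
    (h1 : ∀ y, g (e y) = ∑ x, K x y • e x) (h2 : ∀ x y, K x y ≠ 0 → p y → p x) {V : Submodule Λ M}
    (hV : Submodule.span Λ (e '' {z | p z}) = V) (ψ : Module.End Λ V) (hψ : ∀ u, (ψ u).1 = g u) :
    LinearMap.det ψ = (K.toSquareBlockProp p).det := by
  obtain rfl : Submodule.span Λ (Set.range fun z : Subtype p => e z) = V := by
    rw [← hV, Set.image_eq_range]
    rfl
  rw [← LinearMap.det_toMatrix (Basis.span h)]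
  refine congrArg det (Matrix.ext fun x y => ?_)
  rw [LinearMap.toMatrix_apply, show ψ (Basis.span h y) = ∑ x : Subtype p, K x y • Basis.span h x
    from Subtype.ext (by
      simp only [hψ, Basis.coe_span_apply, h1, Submodule.coe_sum, Submodule.coe_smul]
      rw [← Finset.sum_subtype (Finset.univ.filter p) (by simp) fun x => K x y • e x]
      exact (Finset.sum_filter_of_ne fun x _ q => h2 x y (left_ne_zero_of_smul q) y.2).symm),
    Basis.repr_sum_self]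
  rfl

end

variable {S : AlgebraicGeometry.Scheme.{0}} {Λ : Type} [Field Λ] [CharZero Λ] {H : Over S → Type}
  [∀ X, Ring (H X)] [∀ X, Algebra Λ (H X)] [∀ X, Module ℚ (H X)] {W : Coh Λ H} {X Y Z : Over S}

variable (W) in
/-- The form of a class as a multilinear map. -/
def evM {m : ℕ} (η : H Y) (f : Fin m → (Y ⟶ X)) : MultilinearMap Λ (fun _ : Fin m => H X) Λ :=
  (W.tr Y ∘ₗ LinearMap.mulLeft Λ η).compMultilinearMap ((MultilinearMap.mkPiAlgebraFin Λ m
    (H Y)).compLinearMap fun j => (W.pull (f j)).toLinearMap)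

theorem evM_coe {m : ℕ} (η : H Y) (f : Fin m → (Y ⟶ X)) : ⇑(evM W η f) = W.ev η f := rfl

variable (hW : W.Weil) (hX : W.V X) (hY : W.V Y) (hZ : W.V Z)
include hW hY hZ

theorem num_crs {t : H Y} (hn : ∀ x, W.tr Y (t * W.cl Y x) = 0) {η : H Z} (h : η ∈ W.B Z) (x) :
    W.tr _ (W.crs t η * W.cl _ x) = 0 := by
  have v := hW.prod _ _ hY hZ
  obtain ⟨u, h1, h2⟩ := B_push hW hY hZ (B_mul hW v (B_pull hW v hZ (snd Y Z) h) (A_le (cl_mem x)))
  rw [Coh.crs, mul_assoc, h2]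
  exact B_le (U := LinearMap.ker (W.tr Y ∘ₗ LinearMap.mulLeft Λ t)) hn h1

include hX

theorem ev_app {a b : ℕ} (t : H Y) (f : Fin a → (Y ⟶ X)) {η : H Z} (h : η ∈ W.B Z)
    (f' : Fin b → (Z ⟶ X)) {u : Fin (a + b) → H X} (hu : ∀ j, ∃ d, u j ∈ W.gr X d) :
    W.ev (W.crs t η) (Fin.append (fun j => fst Y Z ≫ f j) fun j => snd Y Z ≫ f' j) u =
      W.ev t f (fun j => u (j.castAdd b)) * W.ev η f' fun j => u (j.natAdd a) := by
  have v := hW.prod _ _ hY hZ
  choose d hd using hu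
  have c := B_comm hW v (B_pull hW v hZ (snd Y Z) h) (hW.pull_gr _ _ v hY (fst Y Z) _ _
    (gr_ofFn hW hY _ _ fun j => hW.pull_gr _ _ hY hX (f j) _ _ (hd (j.castAdd b))))
  simp only [Coh.ev, ← hW.kunneth _ _ hY hZ, Coh.crs, map_mul]
  rw [mul_assoc, mul_assoc, ← mul_assoc _ (W.pull (snd Y Z) η) (W.pull _ _), ← c.eq, mul_assoc,
    List.ofFn_add, List.prod_append]
  simp only [show ∀ i, Fin.castLE (Nat.le_add_right a b) i = Fin.castAdd b i from fun _ => rfl,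
    Fin.append_left, Fin.append_right, hW.pull_comp, map_list_prod, List.map_ofFn,
    Function.comp_def]

omit hZ in
theorem det_zero2 {t : H Y} (ht : t ∈ W.B Y) (hn : ∀ x, W.tr Y (t * W.cl Y x) = 0) {M m : ℕ}
    (f : Fin M → (Y ⟶ X)) (γ : Fin M → Fin m) {U : Fin m → Submodule Λ (H X)} {n d : Fin m → ℕ}
    (b : ∀ i, Basis (Fin (n i)) Λ (U i)) (hd : ∀ i, U i ≤ W.gr X (d i)) {N r : ℕ}
    {κ : Fin r → Fin m} (E : (Σ i : Fin r, Fin (n (κ i))) ≃ Fin (N + 1) × Fin M)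
    (hE : ∀ p, γ (E p).2 = κ p.1) (h : W.Alg fun i => b (κ i)) :
    ∑ π : ∀ i, Equiv.Perm (Fin (n (κ i))), (∏ i, ((Equiv.Perm.sign (π i) : ℤ) : Λ)) *
      pw (ten (W.ev t f) (fun p : Σ i, Fin (n i) => (b p.1 p.2).1) γ) (N + 1)
        (fun x => ⟨κ (E.symm x).1, π _ (E.symm x).2⟩) = 0 := by
  have z := V_pow hW hY N
  obtain ⟨e, he⟩ := alg_pow hW hX (fun i => hd (κ i)) h
  obtain ⟨ε, hε⟩ := tr_grid hW hY ht (n := N) (fun s => d (γ s))
    (l := ((List.finRange r).sigma fun i => List.finRange (n (κ i))).map E)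
    (((List.nodup_finRange r).sigma fun _ => List.nodup_finRange _).map E.injective) fun y =>
      List.mem_map.2 ⟨E.symm y, List.mem_sigma.2 ⟨List.mem_finRange _, List.mem_finRange _⟩,
        E.apply_symm_apply y⟩
  have c : ∀ x, κ (E.symm x).1 = γ x.2 := fun x => by rw [← hE, E.apply_symm_apply]
  have a := pow_zero' hW z (t := (List.ofFn fun j => W.pull (pr Y N j) t).prod)
    (B_list hW z fun x hx => by
      obtain ⟨i, rfl⟩ := List.mem_ofFn.1 hx
      exact B_pull hW z hY _ ht) (fun x => num_pow hW hY ht hn (A_le (cl_mem x)))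
    (gr_ofFn hW z _ _ fun i => det_gr hW hX z (fun x => hd (κ i) (b _ x).2)
      fun y => pr Y N (E ⟨i, y⟩).1 ≫ f (E ⟨i, y⟩).2) (e := e) (by
        simp only [map_list_prod, List.map_ofFn, Function.comp_def, det_pull hW]
        exact he _ (V_pow hW z e) _)
  simp only [det_eq, lp_dsum, Finset.mul_sum, map_sum, mul_smul_comm, _root_.map_smul,
    smul_eq_mul] at a
  rw [← mul_zero ε, ← a, Finset.mul_sum]
  refine Finset.sum_congr rfl fun π _ => ?_
  rw [mul_left_comm]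
  refine congrArg _ (.trans ?_ ((hε (fun x => W.pull (f x.2) (b _ (π _ (E.symm x).2)).1) fun x =>
    hW.pull_gr _ _ hY hX _ _ _ (c x ▸ hd _ (b _ _).2)).trans ?_))
  · exact Finset.prod_congr rfl fun j _ => if_pos fun s => c (j, s)
  · simp only [List.sigma, List.flatMap_def, List.map_flatten, List.prod_flatten, List.map_map,
      List.ofFn_eq_map, Function.comp_def, hW.pull_comp]
    congr 5
    funext i
    congr 2
    funext y
    rw [E.symm_apply_apply]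

end

end Pool.Agent.Lib.MP_035963_ag.HN
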