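import Pool.Agent.Lib.MP_035963_ag.HB.Top

/-! The hypothesis of irreducible monodromy is a special case. -/

open CategoryTheory Module

namespace Pool.Agent.Lib.MP_035963_ag.HN

variable {S : AlgebraicGeometry.Scheme.{0}} {Λ : Type} [Field Λ] [CharZero Λ] {H : Over S → Type}
  [∀ X, Ring (H X)] [∀ X, Algebra Λ (H X)] [∀ X, Module ℚ (H X)] {W : Coh Λ H} {X : Over S}

theorem gap_of_mono (hW : W.Weil) (hX : W.V X) (h : W.Mono X) : W.Gap fun _ : Fin 1 => 𝟙 X := by
  classical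
  intro T
  obtain ⟨G, hG, P, hP, hgen, hA⟩ := h T
  have := hW.fin X hX
  obtain ⟨F, hF, e⟩ : ∃ F : Finset (Submodule Λ (H X)), ↑F ⊆ P ∧
      Algebra.adjoin Λ (⋃ U ∈ F, (U : Set (H X))) = ⊤ := by
    obtain ⟨A, ⟨F, hF, rfl⟩, hm⟩ := set_has_maximal_iff_noetherian.2
      (inferInstance : IsNoetherian Λ (H X)) {A | ∃ F : Finset (Submodule Λ (H X)), ↑F ⊆ P ∧
        Subalgebra.toSubmodule (Algebra.adjoin Λ (⋃ U ∈ F, (U : Set (H X)))) = A}
          ⟨_, ∅, by simp, rfl⟩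
    refine ⟨F, hF, top_le_iff.1 (hgen.ge.trans (Algebra.adjoin_le (Set.iUnion₂_subset
      fun U hU u hu => ?_)))⟩
    refine ((eq_or_lt_of_le (a := Subalgebra.toSubmodule (Algebra.adjoin Λ (⋃ U ∈ F,
      (U : Set (H X))))) (Algebra.adjoin_mono (Set.biUnion_subset_biUnion_left
        (Finset.subset_insert U F)))).resolve_right
          (hm _ ⟨insert U F, by simpa [Set.insert_subset_iff, hU] using hF, rfl⟩)).ge ?_
    exact Algebra.subset_adjoin (Set.mem_biUnion (Finset.mem_insert_self U F) hu)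
  refine ⟨G, fun x hx m j g hg d u hu => ?_, F.card, fun i => F.equivFin.symm i, fun _ => X,
    fun _ => 0, fun _ => 0, fun _ _ => 𝟙 X, fun i => ?_, ?_, fun q κ V hV hT => ⟨fun k _ => ?_,
      fun z a b => hA _ _ _ _ (fun k => hF (F.equivFin.symm _).2) ?_⟩⟩
  · have := tr_sym hW hX (hG hg) (Submodule.subset_span ⟨x, hx, rfl⟩) (gr_ofFn hW hX d u hu)
    simpa only [Coh.ev, Function.comp_def, hW.pull_id, map_list_prod, List.map_ofFn,
      Units.smul_def, smul_eq_mul] using this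
  · obtain ⟨a, b, -⟩ := hP (hF (F.equivFin.symm i).2)
    exact ⟨a, b, hX, zero_mem _, fun g _ d u _ => by simp [Coh.ev]⟩
  · refine top_le_iff.1 (e.ge.trans (Algebra.adjoin_mono (Set.iUnion₂_subset fun U hU u hu => ?_)))
    exact Set.mem_iUnion₂.2 ⟨0, F.equivFin ⟨U, hU⟩, u, by simpa using hu, hW.pull_id _ _⟩
  · exact (hP (hF (F.equivFin.symm _).2)).2.2 _ (hV k).1 (hV k).2.1
  · obtain rfl : V = fun _ => ⊥ := funext z
    refine hT.imp fun w hw g hg φ hφ => ?_
    simpa using hw g hg φ (fun _ => 1) hφ fun i u => by simp [Subsingleton.elim u 0]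

end Pool.Agent.Lib.MP_035963_ag.HN
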