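import Pool.Agent.Lib.MP_035963_ag.HN.Git2

/-! Rational optimal bases, and refined colours. -/

open Matrix

namespace Pool.Agent.Lib.MP_035963_ag.HN

set_option linter.unusedSectionVars false

noncomputable section

variable {F Λ : Type} [Field F] [Field Λ] [CharZero Λ] {S : Type} [Fintype S] [DecidableEq S]
  {C : Type} [Fintype C] [DecidableEq C] {ι : C → Type} [∀ i, Fintype (ι i)]
  [∀ i, DecidableEq (ι i)]

theorem ml_ne {M : Type} [AddCommGroup M] [Module F M] (Φ : MultilinearMap F (fun _ : S => M) F)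
    {A : S → Set M} {u : S → M} (hu : ∀ s, u s ∈ Submodule.span F (A s)) (h : Φ u ≠ 0) :
    ∃ v, (∀ s, v s ∈ A s) ∧ Φ v ≠ 0 := by
  choose n c v e using fun s => Submodule.mem_span_set'.1 (hu s)
  rw [← funext e, Φ.map_sum] at h
  obtain ⟨r, -, hr⟩ := Finset.exists_ne_zero_of_sum_ne_zero h
  rw [Φ.map_smul_univ] at hr
  exact ⟨_, fun s => (v s (r s)).2, right_ne_zero_of_smul hr⟩

theorem descent2 {n : Type} [Fintype n]
    {U : Submodule (AlgebraicClosure Λ) (n → AlgebraicClosure Λ)}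
    (hU : ∀ τ : AlgebraicClosure Λ ≃ₐ[Λ] AlgebraicClosure Λ, ∀ u ∈ U, τ ∘ u ∈ U) {u} (h : u ∈ U) :
    u ∈ Submodule.span (AlgebraicClosure Λ) {v | v ∈ U ∧ ∃ r : n → Λ, algebraMap Λ _ ∘ r = v} := by
  classical
  induction hs : (Finset.univ.filter fun x => u x ≠ 0) using Finset.strongInduction
    generalizing u with
  | H s ih =>
  by_cases z : u = 0
  · exact z ▸ zero_mem _
  obtain ⟨r, r0, hr, hr'⟩ := descent (U := U ⊓ ⨅ (x) (_ : u x = 0), LinearMap.ker (LinearMap.proj x))
    (fun τ v hv => ⟨hU τ v hv.1, by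
      have := hv.2
      simp only [SetLike.mem_coe, Submodule.mem_iInf, LinearMap.mem_ker, LinearMap.proj_apply,
        Function.comp_apply] at this ⊢
      exact fun x hx => by rw [this x hx, map_zero]⟩)
    ((Submodule.ne_bot_iff _).2 ⟨u, ⟨h, by simp⟩, z⟩)
  simp only [SetLike.mem_coe, Submodule.mem_iInf, LinearMap.mem_ker, LinearMap.proj_apply] at hr'
  obtain ⟨j, hj⟩ := Function.ne_iff.1 r0
  have hj : (algebraMap Λ (AlgebraicClosure Λ) ∘ r) j ≠ 0 := by simpa using hj
  generalize hv : algebraMap Λ (AlgebraicClosure Λ) ∘ r = v at *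
  rw [← sub_add_cancel u ((u j / v j) • v)]
  refine add_mem (ih _ (hs ▸ ⟨fun x hx => ?_, fun q => ?_⟩) (sub_mem h (U.smul_mem _ hr)) rfl)
    (Submodule.smul_mem _ _ (Submodule.subset_span ⟨hr, r, hv⟩))
  · simp only [Finset.mem_filter, Finset.mem_univ, true_and] at hx ⊢
    exact fun e => hx (by simp [e, hr' x e])
  · have := q (Finset.mem_filter.2 ⟨Finset.mem_univ j, fun e => hj (hr' j e)⟩)
    simp [hj] at this

theorem des_shift {t : (S → Σ i, ι i) → F} {a g : Blk ι F} (ha : ∀ i, (a i).det ≠ 0) {w} :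
    Des (t ᵥ* tb S a) g w ↔ Des t (a * g) w := by
  have e : t ᵥ* tb S a ᵥ* tb S g = t ᵥ* tb S (a * g) := by rw [tb_mul, vecMul_vecMul]
  have d : ∀ i, ((a * g) i).det = (a i).det * (g i).det := fun i => det_mul _ _
  exact ⟨fun h => ⟨fun i => d i ▸ mul_ne_zero (ha i) (h.det i), h.sum, e ▸ h.pos⟩,
    fun h => ⟨fun i => right_ne_zero_of_mul (d i ▸ h.det i), h.sum, e ▸ h.pos⟩⟩

theorem rat {t : (S → Σ i, ι i) → Λ} {g w} (h : Des (algebraMap Λ (AlgebraicClosure Λ) ∘ t) g w) :
    ∃ (k : Blk ι Λ) (w : (Σ i, ι i) → ℝ), (∀ i, (k i).det ≠ 0) ∧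
      Opt (algebraMap Λ (AlgebraicClosure Λ) ∘ (t ᵥ* tb S k)) 1 w := by
  obtain ⟨g, w, h⟩ := h.opt
  set φ := algebraMap Λ (AlgebraicClosure Λ) with hφ
  have h2 : ∀ i c, ∀ τ : AlgebraicClosure Λ ≃ₐ[Λ] AlgebraicClosure Λ,
      ∀ u ∈ neg g (fun z => if w z ≤ c then -1 else 0) i,
        τ ∘ u ∈ neg g (fun z => if w z ≤ c then -1 else 0) i := fun i c τ u hu => by
    have o : Opt (φ ∘ t) (fun i => (g i).map τ.toRingEquiv.toRingHom) w := by
      refine ⟨⟨fun i => ?_, h.1.sum, fun I hI => h.1.pos I fun z => hI ?_⟩, h.2⟩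
      · rw [← RingHom.mapMatrix_apply, ← RingHom.map_det]
        exact (map_ne_zero _).2 (h.1.det i)
      · have e : φ ∘ t = τ.toRingEquiv.toRingHom ∘ φ ∘ t := funext fun I => (τ.commutes _).symm
        rw [e, vecMul_map, Function.comp_apply, z, map_zero]
    generalize hg : (fun i => (g i).map τ.toRingEquiv.toRingHom) = g' at o
    have e : g * (fun i => (g i)⁻¹ * g' i) = g' := funext fun i =>
      mul_nonsing_inv_cancel_left _ _ (isUnit_iff_ne_zero.2 (h.1.det i))
    have p := h.up (e.symm ▸ o) i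
    obtain ⟨a, ha, rfl⟩ := kem_mem.1 hu
    refine kem_mem.2 ⟨((g i)⁻¹ * g' i) *ᵥ (τ ∘ a), fun x hx => Finset.sum_eq_zero fun y _ => ?_, ?_⟩
    · by_cases q : ((g i)⁻¹ * g' i) x y = 0
      · exact mul_eq_zero_of_left q _
      · refine mul_eq_zero_of_right _ ?_
        rw [Function.comp_apply, ha y, map_zero]
        rw [if_neg fun z => ?_]
        rw [if_pos ((p x y q).trans z)] at hx
        linarith
    · rw [mulVec_mulVec]
      refine (congrArg (· *ᵥ (τ ∘ a)) (congrFun e i)).trans (funext fun x => ?_)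
      subst hg
      exact (RingHom.map_mulVec τ.toRingEquiv.toRingHom (g i) a x).symm
  choose v hv d using fun i => ml_ne detRowAlternating.toMultilinearMap (u := (g i)ᵀ)
    (fun x => descent2 (h2 i (w ⟨i, x⟩)) (kem_mem.2 ⟨Pi.single x 1, fun y hy =>
      Pi.single_eq_of_ne (by rintro rfl; norm_num at hy) _, mulVec_single_one _ _⟩))
    ((det_transpose (g i)).trans_ne (h.1.det i))
  choose r hr using fun i x => (hv i x).2
  choose a ha e using fun i x => kem_mem.1 (hv i x).1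
  have e1 : (fun i => (of (r i))ᵀ.map φ) = g * fun i => (of (a i))ᵀ := funext fun i =>
    Matrix.ext fun y x => (congrFun (hr i x) y).trans (congrFun (e i x) y).symm
  have d1 : ∀ i, ((of (r i))ᵀ.map φ).det ≠ 0 := fun i => by
    rw [show (of (r i))ᵀ.map φ = (of (v i))ᵀ from Matrix.ext fun y x => congrFun (hr i x) y,
      det_transpose]
    exact d i
  refine ⟨fun i => (of (r i))ᵀ, w, fun i z => d1 i ?_, ?_⟩
  · rw [← RingHom.mapMatrix_apply, ← RingHom.map_det, z, map_zero]
  rw [← vecMul_map]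
  refine ⟨(des_shift d1).2 ?_, fun g' w' q => h.2 _ _ ((des_shift d1).1 q)⟩
  rw [mul_one, e1]
  refine h.1.up (fun i => ?_) fun i y x q => by_contra fun z => q (ha i x y (by simp [z]))
  have := d1 i
  rw [congrFun e1 i, Pi.mul_apply, det_mul] at this
  exact right_ne_zero_of_mul this

theorem det_sub {κ α : Type} [Fintype κ] [DecidableEq κ] [DecidableEq α] [LinearOrder α]
    {K : Matrix κ κ F} {f : κ → α} (h : K.BlockTriangular f) (q : κ → Prop) [DecidablePred q]
    (p : α → Prop) [DecidablePred p] (e : ∀ z, q z ↔ p (f z)) : (K.toSquareBlockProp q).det =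
      ∏ c ∈ Finset.univ.image f, if p c then (K.toSquareBlock f c).det else 1 := by
  rw [← Finset.prod_filter]
  refine (h.submatrix (f := (Subtype.val : Subtype q → κ))).det.trans
    (Finset.prod_congr (Finset.ext fun c => ?_) fun c hc => ?_)
  · simp only [Finset.mem_image, Finset.mem_univ, true_and, Finset.mem_filter, Function.comp_apply]
    exact ⟨fun ⟨z, hz⟩ => ⟨⟨_, hz⟩, hz ▸ (e _).1 z.2⟩,
      fun ⟨⟨z, hz⟩, k⟩ => ⟨⟨z, (e z).2 (hz ▸ k)⟩, hz⟩⟩
  · exact det_submatrix_equiv_self (Equiv.subtypeSubtypeEquivSubtype (p := q) (q := fun z => f z = c)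
      fun {z} hz => (e z).2 (hz ▸ (Finset.mem_filter.1 hc).2)) (K.toSquareBlock f c)

theorem bd_det {g : Blk ι F} (h : ∀ i, (g i).det ≠ 0) : (blockDiagonal' g).det ≠ 0 := by
  refine (isUnit_det_of_right_inverse (B := blockDiagonal' fun i => (g i)⁻¹) ?_).ne_zero
  rw [← blockDiagonal'_mul, ← blockDiagonal'_one]
  exact congrArg _ (funext fun i => mul_nonsing_inv _ (h i).isUnit)

theorem tq_equiv {κ κ' : Type} [Fintype κ] [DecidableEq κ] [Fintype κ'] [DecidableEq κ']
    (e : κ' ≃ κ) (T : (S → κ) → F) (M : Matrix κ κ F) :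
    (fun J => T (e ∘ J)) ᵥ* tq S (M.submatrix e e) = fun J => (T ᵥ* tq S M) (e ∘ J) :=
  funext fun J => (Equiv.piCongrRight fun _ : S => e).sum_comp fun I => T I * tq S M I (e ∘ J)

theorem flat {κ α : Type} [Fintype κ] [DecidableEq κ] [DecidableEq α] (f : κ → α)
    {T : (S → κ) → Λ} (h : ∀ (M : Matrix κ κ (AlgebraicClosure Λ)) (u : κ → ℝ), M.det ≠ 0 →
      (∀ x y, M x y ≠ 0 → f x = f y) → (∀ ψ : α → ℝ, ∑ z, ψ (f z) * u z = 0) →
        ∃ I, ((algebraMap Λ _ ∘ T) ᵥ* tq S M) I ≠ 0 ∧ ∑ s, u (I s) < 1) :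
    ∃ (d : ℕ) (J : Fin (d + 1) × S → κ) (m : α → ℕ), pw T (d + 1) J ≠ 0 ∧
      (∀ u : κ → ℝ, ∑ p, u (J p) = ∑ z, m (f z) * u z) ∧ ∀ (M : Matrix κ κ Λ) (s : Λ),
        (∀ x y, M x y ≠ 0 → f x = f y) →
          (∀ c ∈ Finset.univ.image f, (M.toSquareBlock f c).det ≠ 0) → T ᵥ* tq S M = s • T →
            ∏ c ∈ Finset.univ.image f, (M.toSquareBlock f c).det ^ m c = s ^ (d + 1) := by
  classical
  let e : (Σ c : Finset.univ.image f, {z // f z = c.1}) ≃ κ :=
    ⟨fun p => p.2.1, fun z => ⟨⟨f z, Finset.mem_image_of_mem _ (Finset.mem_univ z)⟩, z, rfl⟩,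
      fun ⟨⟨c, _⟩, z, (q : f z = c)⟩ => by subst q; rfl, fun _ => rfl⟩
  obtain ⟨d, P, h1, h2⟩ := Sep.inv (hm (fun J => T (e ∘ J)) fun g u q => by
    obtain ⟨I, a, b⟩ := h ((blockDiagonal' g).submatrix e.symm e.symm) (u ∘ e.symm) 
      ((det_submatrix_equiv_self _ _).trans_ne (bd_det q.det))
      (fun x y z => congrArg Subtype.val (of_blockDiagonal' (P := fun a b => a.1 = b.1)
        (fun _ _ _ _ => rfl) z)) fun ψ => by
          rw [← e.sum_comp, Fintype.sum_sigma]
          refine Finset.sum_eq_zero fun c _ => ?_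
          rw [← mul_zero (ψ c), ← q.sum c, Finset.mul_sum]
          exact Finset.sum_congr rfl fun x _ => by
            rw [Function.comp_apply, e.symm_apply_apply]
            exact congrArg (ψ · * _) x.2
    refine b.not_ge (q.pos (e.symm ∘ I) fun z => a ?_)
    have := congrFun (tq_equiv e (algebraMap Λ _ ∘ T) ((blockDiagonal' g).submatrix e.symm e.symm))
      (e.symm ∘ I)
    rw [submatrix_submatrix, e.symm_comp_self, submatrix_id_id, ← Function.comp_assoc,
      e.self_comp_symm] at this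
    exact this.symm.trans z)
  obtain ⟨γ, -, q0⟩ := Finset.exists_ne_zero_of_sum_ne_zero (s := Finset.univ)
    (f := fun γ : Fin (d + 1) × S → Finset.univ.image f => pw (fun J => T (e ∘ J)) (d + 1) ⬝ᵥ
      fun J => if ∀ p, (J p).1 = γ p then P J else 0)
    (fun z => h1 (by
      rw [← z, ← dotProduct_sum]
      refine congrArg _ (funext fun J => ?_)
      simp only [Finset.sum_apply, ← funext_iff, Finset.sum_ite_eq, Finset.mem_univ, if_true]))
  have q2 := fun i x y b => cut_inv γ (h2 i x y b)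
  generalize hQ : (fun J => if ∀ p, (J p).1 = γ p then P J else 0) = Q at q0 q2
  have q1 : ∀ J, Q J ≠ 0 → ∀ p, (J p).1 = γ p := fun J z => by_contra fun q => z (hQ ▸ if_neg q)
  obtain ⟨J, -, hJ⟩ := Finset.exists_ne_zero_of_sum_ne_zero q0
  obtain ⟨r, κ', E, rfl⟩ := se_equiv q2 (right_ne_zero_of_mul hJ)
  refine ⟨d, e ∘ jp E 1, fun c => (Finset.univ.filter fun k => (κ' k).1 = c).card,
    left_ne_zero_of_mul hJ, fun u => ?_, fun M s m1 m2 m3 => ?_⟩
  · rw [← E.sum_comp, Fintype.sum_sigma]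
    simp only [Finset.card_filter, Nat.cast_sum, Finset.sum_mul, Function.comp_apply, jp_apply]
    rw [Finset.sum_comm]
    refine Finset.sum_congr rfl fun k _ => ?_
    simp only [Nat.cast_ite, Nat.cast_one, Nat.cast_zero, ite_mul, one_mul, zero_mul]
    rw [← Finset.sum_filter]
    exact (Finset.sum_subtype _ (fun z => by simp [eq_comm]) u).symm
  · have k := se_all q1 q2 (right_ne_zero_of_mul hJ) (g := fun c => M.toSquareBlock f c.1)
      fun c => m2 _ c.2
    have a := dotProduct_mulVec (pw (fun J => T (e ∘ J)) (d + 1))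
      (tb _ fun c : Finset.univ.image f => M.toSquareBlock f c.1) Q
    have b : pw (fun J => T (e ∘ J)) (d + 1) ᵥ* (tb _ fun c : Finset.univ.image f =>
        M.toSquareBlock f c.1) = s ^ (d + 1) • pw (fun J => T (e ∘ J)) (d + 1) := by
      refine (pw_vecMul _ _ _).trans (funext fun J => ?_)
      rw [show (blockDiagonal' fun c : Finset.univ.image f => M.toSquareBlock f c.1) =
        M.submatrix e e from Matrix.ext fun ⟨c, x⟩ ⟨c', y⟩ => by
          by_cases z : c = c'
          · subst z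
            exact blockDiagonal'_apply_eq _ _ _ _
          · exact (blockDiagonal'_apply_ne _ _ _ z).trans (by_contra fun q => z (Subtype.ext
              (x.2.symm.trans ((m1 _ _ (Ne.symm q)).trans y.2)))), tq_equiv, m3]
      simp [pw, Finset.prod_mul_distrib]
    rw [k, b, dotProduct_smul, smul_dotProduct] at a
    rw [← mul_right_cancel₀ q0 a, ← Finset.prod_fiberwise_of_maps_to' (t := Finset.univ.image f)
      (g := fun k => (κ' k).1) (fun k _ => (κ' k).2) fun c => (M.toSquareBlock f c).det]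
    simp only [Finset.prod_const]

end

end Pool.Agent.Lib.MP_035963_ag.HN
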