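import Pool.Agent.Lib.MP_035963_ag.HB.Geo

/-! Numerically trivial classes vanish when no Tate family of flags has a null member. -/

open CategoryTheory MonoidalCategory CartesianMonoidalCategory Opposite Module Matrix

namespace Pool.Agent.Lib.MP_035963_ag.HN

set_option linter.unusedSectionVars false

noncomputable section

section

variable {Λ : Type} [Field Λ] {M : Type} [AddCommGroup M] [Module Λ M] {n : ℕ}
  {U : Fin n → Submodule Λ M} {a : Fin n → ℕ} (b : ∀ i, Basis (Fin (a i)) Λ (U i))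

/-- The vectors of the bases. -/
def vec (p : Σ i, Fin (a i)) : M := b p.1 p.2

theorem vec_li (i) : LinearIndepOn Λ (vec b) {z | z.1 = i} :=
  (show Set.range (Sigma.mk i) = {z : Σ i, Fin (a i) | z.1 = i} from Set.range_sigmaMk i) ▸
    (linearIndepOn_range_iff sigma_mk_injective _).2
      ((b i).linearIndependent.map' (U i).subtype (U i).ker_subtype)

theorem vec_span (i) : Submodule.span Λ (vec b '' {z | z.1 = i}) = U i := by
  rw [← show Set.range (Sigma.mk i) = {z : Σ i, Fin (a i) | z.1 = i} from Set.range_sigmaMk i,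
    ← Set.range_comp,
    show vec b ∘ Sigma.mk i = (U i).subtype ∘ b i from rfl, Set.range_comp, Submodule.span_image,
    (b i).span_eq, Submodule.map_subtype_top]

theorem vec_sum (k : Blk (fun i => Fin (a i)) Λ) (i y) :
    ∑ q, blockDiagonal' k q ⟨i, y⟩ • vec b q = (∑ x, k i x y • b i x : U i) := by
  rw [Fintype.sum_sigma, Fintype.sum_eq_single i fun j z => by
    simp [blockDiagonal'_apply_ne _ _ _ z]]
  simp only [blockDiagonal'_apply_eq, Submodule.coe_sum, Submodule.coe_smul, vec]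

theorem vec_chg {k : Blk (fun i => Fin (a i)) Λ} (h : ∀ i, (k i).det ≠ 0) :
    ∃ b' : ∀ i, Basis (Fin (a i)) Λ (U i),
      (fun p => ∑ q, blockDiagonal' k q p • vec b q) = vec b' :=
  ⟨fun i => (b i).map (toLinearEquiv (b i) (k i) (h i).isUnit), funext fun ⟨i, y⟩ =>
    (vec_sum b k i y).trans (congrArg Subtype.val (toLin_self (b i) (b i) (k i) y).symm)⟩

end

variable {S : AlgebraicGeometry.Scheme.{0}} {Λ : Type} [Field Λ] [CharZero Λ] {H : Over S → Type}
  [∀ X, Ring (H X)] [∀ X, Algebra Λ (H X)] [∀ X, Module ℚ (H X)] {W : Coh Λ H} {X Z : Over S}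
  (hW : W.Weil) (hX : W.V X)
include hW hX

theorem pad {G : Set ((H X ≃ₐ[Λ] H X) × Λˣ)} {n : ℕ} {U : Fin n → Submodule Λ (H X)}
    {Y : Fin n → Over S} {η : ∀ i, H (Y i)} {m : Fin n → ℕ} {f : ∀ i, Fin (m i + 1) → (Y i ⟶ X)}
    {d : Fin n → ℕ} (hd : ∀ i, U i ≤ W.gr X (d i)) (hS : ∀ i, Stb G (U i))
    (hP : ∀ i, W.V (Y i) ∧ η i ∈ W.B (Y i) ∧ W.Inv G (W.ev (η i) (f i))) (hZ : W.V Z) {t : H Z}
    (ht : t ∈ W.B Z) (hn : ∀ x, W.tr Z (t * W.cl Z x) = 0) {M : ℕ} {π : Fin M → (Z ⟶ X)}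
    (hI : W.Inv G (W.ev t π)) (γ : Fin M → Fin n) (a : Fin n → ℕ) (L : List (Fin n)) :
    ∃ Z', W.V Z' ∧ ∃ t' ∈ W.B Z', (∀ x, W.tr Z' (t' * W.cl Z' x) = 0) ∧
      ∃ (M' c : ℕ) (π' : Fin M' → (Z' ⟶ X)) (γ' : Fin M' → Fin n),
        (∀ g ∈ G, ∀ u, (∀ s, u s ∈ U (γ' s)) →
          W.ev t' π' (fun s => g.1 (u s)) = ↑(g.2 ^ c) * W.ev t' π' u) ∧
        ∀ (e : (Σ i, Fin (a i)) → H X) (w : (Σ i, Fin (a i)) → ℝ) (μ : Fin n → ℝ) (J),
          (∀ z, e z ∈ U z.1) → (∀ i, ((∀ u, (∀ j, u j ∈ U i) → W.ev (η i) (f i) u = 0) ∧ 0 ≤ μ i) ∨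
            ∃ I, ten (W.ev (η i) (f i)) e (fun _ => i) I ≠ 0 ∧ ∑ j, w (I j) ≤ μ i) →
          ten (W.ev t π) e γ J ≠ 0 → ∃ J', ten (W.ev t' π') e γ' J' ≠ 0 ∧
            ∑ s, w (J' s) ≤ ∑ s, w (J s) + (L.map μ).sum := by
  induction L with
  | nil => exact ⟨Z, hZ, t, ht, hn, M, _, π, γ, fun g hg u hu => hI g hg _ u fun s => hd _ (hu s),
      fun e w μ J _ _ h => ⟨J, h, by simp⟩⟩
  | cons i L ih =>
    obtain ⟨Z', v, t', h1, h2, M', c, π', γ', h3, h4⟩ := ih
    by_cases z : ∀ u, (∀ j, u j ∈ U i) → W.ev (η i) (f i) u = 0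
    · refine ⟨Z', v, t', h1, h2, M', c, π', γ', h3, fun e w μ J a1 a2 a3 =>
        (h4 e w μ J a1 a2 a3).imp fun J' q => ⟨q.1, q.2.trans ?_⟩⟩
      obtain q | ⟨I, q, -⟩ := a2 i
      · simp [q.2]
      · exact absurd (z _ fun j => (ten_ne.1 q).1 j ▸ a1 (I j)) (ten_ne.1 q).2
    obtain ⟨p1, p2, p3⟩ := hP i
    have v' := hW.prod _ _ v p1
    refine ⟨_, v', W.crs t' (η i), B_mul hW v' (B_pull hW v' v _ h1) (B_pull hW v' p1 _ p2),
      num_crs hW v p1 h2 p2, M' + (m i + 1), c + (∑ _ : Fin (m i + 1), d i) / 2,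
      Fin.append (fun j => fst _ _ ≫ π' j) fun j => snd _ _ ≫ f i j, Fin.append γ' fun _ => i,
      fun g hg u hu => ?_, fun e w μ J a1 a2 a3 => ?_⟩
    · rw [ev_app hW hX v p1 _ _ p2 _ fun j => ⟨_, hd _ (hu j)⟩,
        ev_app hW hX v p1 _ _ p2 _ fun j => ⟨_, hd _ (hS _ g hg _ (hu j))⟩,
        h3 g hg _ fun s => by simpa using hu (s.castAdd _),
        p3 g hg (fun _ => d i) _ fun s => hd i (by simpa using hu (s.natAdd _)), pow_add,
        Units.val_mul, Units.smul_def, smul_eq_mul, mul_mul_mul_comm]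
    · obtain ⟨J', b1, b2⟩ := h4 e w μ J a1 a2 a3
      obtain ⟨I, b3, b4⟩ := (a2 i).resolve_left fun q => z q.1
      refine ⟨Fin.append J' I, ten_ne.2 ⟨Fin.addCases (by simpa using (ten_ne.1 b1).1)
        (by simpa using (ten_ne.1 b3).1), ?_⟩, ?_⟩
      · rw [ev_app hW hX v p1 _ _ p2 _ fun j => ⟨_, hd _ (a1 _)⟩]
        simp only [Fin.append_left, Fin.append_right]
        exact mul_ne_zero (ten_ne.1 b1).2 (ten_ne.1 b3).2
      · rw [Fin.sum_univ_add]
        simp only [Fin.append_left, Fin.append_right, List.map_cons, List.sum_cons]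
        linarith

variable (hZ : W.V Z) {r : ℕ} {π : Fin r → (Z ⟶ X)} (h : W.Gap π)
include hZ h

theorem nondeg3 {t} (ht : t ∈ W.B Z) (hn : ∀ x, W.tr Z (t * W.cl Z x) = 0) : t = 0 := by
  classical
  by_contra h0
  obtain ⟨T, hT⟩ : ∃ T : Finset Z.left, t ∈ Submodule.span Λ (W.cl Z '' T) := by
    obtain ⟨a, rfl⟩ := Finsupp.mem_span_range_iff_exists_finsupp.1 ht
    exact ⟨a.support, sum_mem fun x hx =>
      Submodule.smul_mem _ _ (Submodule.subset_span ⟨x, hx, rfl⟩)⟩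
  obtain ⟨G, hG, n, U, Y, η, m, f, hP, hgen, hA⟩ := h T
  obtain ⟨M, I, hI⟩ := exists_mono hW hZ (e := Subtype.val)
    ((congrArg _ Subtype.range_coe).trans hgen) h0
  choose j γ u hu e0 using fun s => Set.mem_iUnion₂.1 (I s).2
  choose d hd using fun i => (hP i).1
  have := hW.fin X hX
  obtain ⟨Z', v, t', h1, h2, M', c, π', γ', h3, h4⟩ := pad hW hX hd (fun i => (hP i).2.1)
    (fun i => (hP i).2.2) hZ ht hn (π := π ∘ j) (fun g hg d u hu => sub_eq_zero.1
      ((Submodule.span_le (p := LinearMap.ker (W.tr Z ∘ₗ LinearMap.mulRight Λ _ -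
        g.2 ^ ((∑ j, d j) / 2) • W.tr Z ∘ₗ LinearMap.mulRight Λ _))).2 (by
          rintro _ ⟨x, hx, rfl⟩
          exact sub_eq_zero.2 (hG x hx M j g hg d u hu)) hT)) γ (fun i => finrank Λ (U i))
    ((Finset.univ : Finset (Fin M × Σ i, Fin (finrank Λ (U i)))).toList.map (·.2.1))
  have k0 : ∀ b : ∀ i, Basis (Fin (finrank Λ (U i))) Λ (U i),
      ∃ J, ten (W.ev t (π ∘ j)) (vec b) γ J ≠ 0 := fun b =>
    (ten_ex (evM W t (π ∘ j)) (p := fun s z => z.1 = γ s) (fun _ _ q => q)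
      (fun s => (vec_span b _).ge (hu s)) fun z => hI (funext e0 ▸ z)).imp fun _ q => q.1
  let φ := fun (g : G) i => g.1.1.toLinearMap.restrict ((hP i).2.1 g g.2)
  have k1 : ∀ (b : ∀ i, Basis (Fin (finrank Λ (U i))) Λ (U i)) (g : G) (p), g.1.1 (vec b p) =
      ∑ q, blockDiagonal' (fun i => LinearMap.toMatrix (b i) (b i) (φ g i)) q p • vec b q :=
    fun b g ⟨i, y⟩ => by
      simp only [vec_sum, LinearMap.toMatrix_apply, Basis.sum_repr]
      rfl
  have k2 : ∀ (b : ∀ i, Basis (Fin (finrank Λ (U i))) Λ (U i)) (g : G),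
      ten (W.ev t' π') (vec b) γ' ᵥ* tb _ (fun i => LinearMap.toMatrix (b i) (b i) (φ g i)) =
        (↑(g.1.2 ^ c) : Λ) • ten (W.ev t' π') (vec b) γ' := fun b g => by
    refine (ten_tb (evM W t' π') _ _).trans (funext fun J => ?_)
    simp only [← k1, ten, Pi.smul_apply, smul_eq_mul, mul_ite, mul_zero]
    exact ite_congr rfl (fun q => h3 g g.2 _ fun s => q s ▸ (b _ _).2) fun _ => rfl
  have k3 : ∀ (b : ∀ i, Basis (Fin (finrank Λ (U i))) Λ (U i)) (g : G) (i),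
      (LinearMap.toMatrix (b i) (b i) (φ g i)).det ≠ 0 := fun b g i => by
    rw [LinearMap.det_toMatrix, Ne, LinearMap.det_eq_zero_iff_ker_ne_bot, not_not,
      LinearMap.ker_eq_bot]
    exact fun u v z => Subtype.ext (g.1.1.injective (congrArg Subtype.val z))
  let b := fun i => Module.finBasis Λ (U i)
  by_cases q : ∀ g w, ¬Des (algebraMap Λ (AlgebraicClosure Λ) ∘ ten (W.ev t' π') (vec b) γ') g w
  · obtain ⟨N, r, κ, E, a1, a2, a3⟩ := git3 (γ := γ') (t := ten (W.ev t' π') (vec b) γ')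
      (fun J z => (ten_ne.1 z).1) q
    refine a3 (det_zero2 hW hX v h1 h2 π' γ' b hd E a1 ((hA r κ (fun _ => ⊥) (fun k =>
      ⟨bot_le, fun g _ u hu => by simpa using hu, fun _ _ => .inl le_rfl⟩)
        ⟨c * (N + 1), fun g hg ψ ψ' a4 _ => ?_⟩).2 (fun _ => rfl) _ _))
    simp only [LinearMap.det_eq_one_of_subsingleton, Finset.prod_const_one, mul_one]
    rw [pow_mul, Units.val_pow_eq_pow_val, ← a2 _ _ (k3 b ⟨g, hg⟩) (k2 b _)]
    refine Finset.prod_congr rfl fun i _ => ?_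
    rw [LinearMap.det_toMatrix]
    exact congrArg _ (LinearMap.ext fun u => Subtype.ext (a4 i u))
  push Not at q
  obtain ⟨k, w, a1, a2⟩ := rat q.choose_spec.choose_spec
  obtain ⟨b, e⟩ : ∃ b' : ∀ i, Basis (Fin (finrank Λ (U i))) Λ (U i),
      ten (W.ev t' π') (vec b) γ' ᵥ* tb _ k = ten (W.ev t' π') (vec b') γ' :=
    (vec_chg b a1).imp fun _ e => (ten_tb (evM W t' π') _ _).trans (by rw [e, evM_coe])
  rw [e] at a2
  obtain ⟨J, hJ⟩ := k0 b
  have k4 : ∀ i (p : (Σ i, Fin (finrank Λ (U i))) → Prop) (u), (∀ j, u j ∈ Submodule.span Λ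
      (vec b '' {z | z.1 = i ∧ p z})) → W.ev (η i) (f i) u ≠ 0 →
        ∃ I, ten (W.ev (η i) (f i)) (vec b) (fun _ => i) I ≠ 0 ∧ ∀ j, (I j).1 = i ∧ p (I j) :=
    fun i p u hu => ten_ex (evM W (η i) (f i)) (fun _ _ q => q.1) hu
  obtain ⟨N, A, μ, b1, b2, b3⟩ := bogo (fun z => by
    obtain ⟨J', q, -⟩ := h4 (vec b) 0 0 J (fun z => (b _ _).2) (fun i => or_iff_not_imp_left.2
      fun q => by
        simp only [Pi.zero_apply, le_refl, and_true, not_forall] at q
        obtain ⟨u, hu, q⟩ := q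
        exact (k4 i (fun _ => True) u (fun j => by simpa [vec_span] using hu j) q).imp
          fun I q => ⟨q.1, by simp⟩) hJ
    exact q (congrFun z J')) a2
  let V := fun (i : Fin n) (a : ℕ) => Submodule.span Λ (vec b '' {z | z.1 = i ∧ μ z ≤ a})
  have b4 := fun g => b3 _ _ (k3 b g) (k2 b g)
  let E := (finProdFinEquiv (m := n) (n := A)).symm
  have b5 := (hA _ (fun k => (E k).1) (fun k => V (E k).1 (E k).2) (fun k =>
    ⟨(Submodule.span_mono (Set.image_mono fun z q => q.1)).trans (vec_span b _).le,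
      fun g hg u hu => (Submodule.span_le (p := (V _ _).comap g.1.toLinearMap)).2 (by
        rintro _ ⟨y, hy, rfl⟩
        refine Submodule.mem_comap.2 (Set.mem_of_eq_of_mem (k1 b ⟨g, hg⟩ y) (sum_mem fun x _ => ?_))
        refine by_contra fun z => z (Submodule.smul_mem _ _ (Submodule.subset_span ⟨x, ?_, rfl⟩))
        have := (b4 ⟨g, hg⟩).1 x y fun q => z (by rw [q, zero_smul]; exact zero_mem _)
        exact ⟨this.1.trans hy.1, this.2.trans hy.2⟩) hu,
      fun l q => (le_total ((E k).2 : ℕ) (E l).2).imp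
        (fun z => Submodule.span_mono (Set.image_mono fun _ y => ⟨y.1.trans q, y.2.trans z⟩))
        fun z => Submodule.span_mono (Set.image_mono fun _ y => ⟨y.1.trans q.symm, y.2.trans z⟩)⟩)
    ⟨c * N, fun g hg ψ ψ' a4 a5 => by
      have := (b4 ⟨g, hg⟩).2
      rw [← E.prod_comp, ← E.prod_comp, ← Units.val_pow_eq_pow_val, ← pow_mul] at this
      refine (Finset.prod_congr rfl fun k _ => det_span (vec_li b _) (k1 b ⟨g, hg⟩)
        (fun x y z q => ((b4 _).1 x y z).1.trans q) (vec_span b _) _ (a4 k)).trans (this.trans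
          (congrArg _ (Finset.prod_congr rfl fun k _ => .symm ?_)))
      exact det_span (p := fun z => z.1 = (E k).1 ∧ μ z ≤ (E k).2)
        ((vec_li b (E k).1).mono fun z q => And.left q) (k1 b ⟨g, hg⟩) (fun x y z q =>
        ⟨((b4 _).1 x y z).1.trans q.1, ((b4 _).1 x y z).2.trans q.2⟩) rfl _ (a5 k)⟩).1
  have b6 : ∀ i, ∃ ν : ℝ, (∀ x, ν ≤ w ⟨i, x⟩) ∧ ν ≤ 0 ∧
      ((∀ u, (∀ j, u j ∈ U i) → W.ev (η i) (f i) u = 0) ∧ 0 ≤ ν ∨
        ∃ I, ten (W.ev (η i) (f i)) (vec b) (fun _ => i) I ≠ 0 ∧ ∑ j, w (I j) ≤ ν) := fun i => by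
    rcases isEmpty_or_nonempty (Fin (finrank Λ (U i))) with z | z
    · exact ⟨0, isEmptyElim, le_rfl, .inl ⟨fun u hu => by_contra fun q => (k4 i (fun _ => True) u
        (fun j => by simpa [vec_span] using hu j) q).elim fun I q =>
          z.false ((q.2 0).1 ▸ (I 0).2), le_rfl⟩⟩
    obtain ⟨x, -, hx⟩ := Finset.exists_min_image Finset.univ (fun x => w ⟨i, x⟩) Finset.univ_nonempty
    have n0 : (0 : ℝ) < (Finset.univ : Finset (Fin (finrank Λ (U i)))).card :=
      Nat.cast_pos.2 Finset.univ_nonempty.card_pos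
    have n1 : w ⟨i, x⟩ ≤ 0 := by
      have := Finset.card_nsmul_le_sum _ _ _ hx
      rw [a2.1.sum, nsmul_eq_mul] at this
      exact nonpos_of_mul_nonpos_right this n0
    refine ⟨_, fun y => hx y (Finset.mem_univ y), n1, ?_⟩
    by_cases q : ∀ u, (∀ j, u j ∈ V i (μ ⟨i, x⟩)) → W.ev (η i) (f i) u = 0
    · obtain z | z := (E.surjective.forall (p := fun p : Fin n × Fin A => (∀ u, (∀ j, u j ∈
        V p.1 p.2) → W.ev (η p.1) (f p.1) u = 0) → V p.1 p.2 = ⊥ ∨ V p.1 p.2 = U p.1)).2 b5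
          (i, ⟨_, b1 ⟨i, x⟩⟩) q
      · exact absurd ((Submodule.mem_bot Λ).1 (z.le (Submodule.subset_span
          ⟨⟨i, x⟩, ⟨rfl, le_rfl⟩, rfl⟩))) ((vec_li b i).ne_zero rfl)
      refine .inl ⟨fun u hu => q u fun j => z.ge (hu j), ?_⟩
      have := Finset.sum_le_card_nsmul Finset.univ (fun y => w ⟨i, y⟩) (w ⟨i, x⟩) fun y _ =>
        (b2 ⟨i, y⟩ ⟨i, x⟩ rfl).1 ((linearIndepOn_insert_iff.1 ((vec_li b i).mono
          (t := insert ⟨i, y⟩ {z : Σ i, Fin (finrank Λ (U i)) | z.1 = i ∧ μ z ≤ μ ⟨i, x⟩})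
            (Set.insert_subset rfl fun _ q => And.left q))).2 (z.ge (b i y).2)).2
      rw [a2.1.sum, nsmul_eq_mul] at this
      exact nonneg_of_mul_nonneg_right this n0
    · push Not at q
      obtain ⟨u, hu, q⟩ := q
      refine .inr ((k4 i _ u hu q).imp fun I q => ⟨q.1, ?_⟩)
      have := Finset.sum_le_card_nsmul Finset.univ (fun j => w (I j)) (w ⟨i, x⟩) fun j _ =>
        (b2 _ ⟨i, x⟩ (q.2 j).1).1 (q.2 j).2
      rw [Finset.card_univ, Fintype.card_fin, nsmul_eq_mul] at this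
      push_cast at this
      nlinarith [Nat.cast_nonneg (α := ℝ) (m i)]
  choose ν c1 c2 c3 using b6
  obtain ⟨J', c4, c5⟩ := h4 (vec b) w ν J (fun z => (b _ _).2) c3 hJ
  have c6 := a2.1.pos J' (by simpa [tb_one] using c4)
  have c7 : ∀ z, w z + ∑ y : Σ i, Fin (finrank Λ (U i)), ν y.1 ≤ 0 := fun z => by
    have := Finset.single_le_sum (f := fun y : Σ i, Fin (finrank Λ (U i)) => w y - ν y.1)
      (fun y _ => sub_nonneg.2 (c1 y.1 y.2)) (Finset.mem_univ z)
    rw [Finset.sum_sub_distrib, Fintype.sum_sigma, Finset.sum_eq_zero fun i _ => a2.1.sum i] at this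
    linarith [c2 z.1]
  rw [List.map_map, Finset.sum_map_toList, Fintype.sum_prod_type, ← Finset.sum_add_distrib] at c5
  exact (c6.trans (c5.trans (Finset.sum_nonpos fun s _ => c7 (J s)))).not_gt one_pos

theorem inj3 : Function.Injective ((W.A Z).subtype.liftBaseChange Λ) := by
  let b := Basis.ofVectorSpace ℚ (W.A Z)
  refine LinearMap.injective_of_linearIndependent (b.baseChange Λ).span_eq ?_
  rw [show (W.A Z).subtype.liftBaseChange Λ ∘ b.baseChange Λ = fun i => (b i : H Z) from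
    funext fun i => by simp]
  refine linearIndependent_iff'.2 fun s c hc i hi =>
    (Module.forall_dual_apply_eq_zero_iff ℚ (c i)).1 fun l => ?_
  refine linearIndependent_iff'.1 b.linearIndependent s (fun j => l (c j)) (Subtype.ext
    (nondeg3 hW hX hZ h (A_le (Subtype.prop _)) fun x => ?_)) i hi
  choose q hq using fun j => hW.alg_tr Z hZ _ (hW.alg_mul Z hZ _ (b j).2 _ (cl_mem x))
  have a := congrArg (fun v => l (W.tr Z (v * W.cl Z x))) hc
  simp only [Finset.sum_mul, smul_mul_assoc, map_sum, _root_.map_smul, hq, zero_mul, map_zero,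
    smul_eq_mul, mul_comm (c _), ← Rat.smul_def] at a
  have z : ∀ (r : ℚ) (v : H Z), r • v = (r : Λ) • v := fun r v =>
    (Rat.cast_smul_eq_qsmul Λ r v).symm
  simp only [Submodule.coe_sum, Submodule.coe_smul, z, Finset.sum_mul, smul_mul_assoc, map_sum,
    _root_.map_smul, hq, smul_eq_mul, mul_comm _ (q _ : Λ)]
  exact_mod_cast a

end

end Pool.Agent.Lib.MP_035963_ag.HN
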